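import Mathlib

set_option autoImplicit false

/-! Counting label lists of blue chains. -/

namespace Pool.Agent.Helper71_NFree

variable {V : Type} [DecidableEq V]

/-- One step of a chain: the trace on `Y` grows by exactly the new label `y`. -/
def Step (Y : Finset V) (c : Finset V) (y : V) (d : Finset V) : Prop :=
  c ⊆ d ∧ y ∉ c ∧ y ∈ Y ∧ d ∩ Y = insert y (c ∩ Y)

/-- `Reach Y B b l b'`: there is a chain from `b` to `b'` whose members after `b` satisfy `B`, and the list `l`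
is the list of labels in reversed order. -/
def Reach (Y : Finset V) (B : Finset V → Prop) (b : Finset V) : List V → Finset V → Prop
  | [], b' => b = b'
  | (y :: l), b' => B b' ∧ ∃ c, Step Y c y b' ∧ Reach Y B b l c

theorem Step.ssubset {Y c d : Finset V} {y : V} (h : Step Y c y d) : c ⊂ d := by
  obtain ⟨h1, h2, -, h4⟩ := h
  refine (Finset.ssubset_iff_of_subset h1).2 ⟨y, ?_, h2⟩
  have : y ∈ d ∩ Y := by rw [h4]; exact Finset.mem_insert_self _ _
  exact (Finset.mem_inter.1 this).1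

theorem Step.label_unique {Y c d : Finset V} {y z : V} (h : Step Y c y d) (h' : Step Y c z d) : y = z := by
  obtain ⟨-, h2, -, h4⟩ := h
  obtain ⟨-, -, -, h4'⟩ := h'
  have : y ∈ insert z (c ∩ Y) := by
    rw [← h4', h4]; exact Finset.mem_insert_self _ _
  rcases Finset.mem_insert.1 this with h | h
  · exact h
  · exact absurd (Finset.mem_inter.1 h).1 h2

theorem Reach.subset {Y : Finset V} {B : Finset V → Prop} {b : Finset V} :
    ∀ {l : List V} {b' : Finset V}, Reach Y B b l b' → b ⊆ b'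
  | [], _, h => by
    have h : b = _ := h
    rw [h]
  | (_ :: _), _, h => by
    obtain ⟨-, c, hs, hr⟩ := h
    exact (Reach.subset hr).trans hs.1

theorem Reach.nil_of_self {Y : Finset V} {B : Finset V → Prop} {b : Finset V} :
    ∀ {l : List V}, Reach Y B b l b → l = []
  | [], _ => rfl
  | (_ :: _), h => by
    obtain ⟨-, c, hs, hr⟩ := h
    exact absurd (Reach.subset hr) (fun h => (hs.ssubset).2 h)

/-- First passage decomposition. -/
theorem first_passage {Y : Finset V} {B : Finset V → Prop} {F : Finset V → Finset V → Prop}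
    (hirr : ∀ c, ¬ F c c) {b : Finset V} :
    ∀ {l : List V} {b' : Finset V}, Reach Y B b l b' →
      (¬ F b b') ∨ ∃ l₂ y l₁ c d, l = l₂ ++ y :: l₁ ∧ Reach Y B b l₁ c ∧ ¬ F b c ∧ B d ∧ Step Y c y d ∧
        F b d ∧ Reach Y B d l₂ b'
  | [], b', h => by
    have h : b = b' := h
    subst h
    exact Or.inl (hirr b)
  | (y :: l), b', h => by
    obtain ⟨hB, c, hs, hr⟩ := h
    rcases first_passage hirr hr with h1 | ⟨l₂, y', l₁, c', d, hl, hr1, hF1, hBd, hs1, hF2, hr2⟩
    · by_cases hF : F b b'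
      · exact Or.inr ⟨[], y, l, c, b', rfl, hr, h1, hB, hs, hF, rfl⟩
      · exact Or.inl hF
    · refine Or.inr ⟨y :: l₂, y', l₁, c', d, ?_, hr1, hF1, hBd, hs1, hF2, ?_⟩
      · rw [hl]; rfl
      · exact ⟨hB, c, hs, hr2⟩

/-- The lists satisfying `P` lie in a finite set of size at most `M`. -/
def Cov (P : List V → Prop) (M : ℕ) : Prop :=
  ∃ S : Finset (List V), (∀ l, P l → l ∈ S) ∧ S.card ≤ M

omit [DecidableEq V] in
theorem Cov.mono {P Q : List V → Prop} {M M' : ℕ} (h : Cov P M) (hPQ : ∀ l, Q l → P l) (hM : M ≤ M') :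
    Cov Q M' := by
  obtain ⟨S, h1, h2⟩ := h
  exact ⟨S, fun l hl => h1 l (hPQ l hl), h2.trans hM⟩

theorem Cov.or {P Q : List V → Prop} {M M' : ℕ} (h : Cov P M) (h' : Cov Q M') :
    Cov (fun l => P l ∨ Q l) (M + M') := by
  obtain ⟨S, h1, h2⟩ := h
  obtain ⟨S', h1', h2'⟩ := h'
  refine ⟨S ∪ S', fun l hl => ?_, (Finset.card_union_le _ _).trans (Nat.add_le_add h2 h2')⟩
  rcases hl with hl | hl
  · exact Finset.mem_union_left _ (h1 l hl)
  · exact Finset.mem_union_right _ (h1' l hl)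

theorem Cov.sum {ι : Type*} (I : Finset ι) {P : ι → List V → Prop} {M : ι → ℕ}
    (h : ∀ i ∈ I, Cov (P i) (M i)) : Cov (fun l => ∃ i ∈ I, P i l) (∑ i ∈ I, M i) := by
  classical
  choose! S h1 h2 using h
  refine ⟨I.biUnion S, ?_, ?_⟩
  · rintro l ⟨i, hi, hl⟩
    exact Finset.mem_biUnion.2 ⟨i, hi, h1 i hi l hl⟩
  · exact Finset.card_biUnion_le.trans (Finset.sum_le_sum (fun i hi => h2 i hi))

theorem Cov.const {ι : Type*} (I : Finset ι) {P : ι → List V → Prop} {M : ℕ}
    (h : ∀ i ∈ I, Cov (P i) M) : Cov (fun l => ∃ i ∈ I, P i l) (I.card * M) := by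
  have := Cov.sum (M := fun _ => M) I h
  simpa using this

omit [DecidableEq V] in
theorem Cov.false {P : List V → Prop} (h : ∀ l, ¬ P l) (M : ℕ) : Cov P M :=
  ⟨∅, fun l hl => absurd hl (h l), by simp⟩

theorem Cov.join (Y : Finset V) (c d : Finset V) {P Q : List V → Prop} {M M' : ℕ} (h : Cov P M) (h' : Cov Q M') :
    Cov (fun l => ∃ l₂ y l₁, l = l₂ ++ y :: l₁ ∧ Step Y c y d ∧ P l₂ ∧ Q l₁) (M * M') := by
  classical
  obtain ⟨S, h1, h2⟩ := h
  obtain ⟨S', h1', h2'⟩ := h'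
  by_cases hex : ∃ y, Step Y c y d
  · obtain ⟨y, hy⟩ := hex
    refine ⟨(S ×ˢ S').image (fun p => p.1 ++ y :: p.2), ?_, ?_⟩
    · rintro l ⟨l₂, z, l₁, hl, hz, hl₂, hl₁⟩
      have hyz := hy.label_unique hz
      subst hyz
      exact Finset.mem_image.2 ⟨(l₂, l₁), Finset.mem_product.2 ⟨h1 _ hl₂, h1' _ hl₁⟩, hl.symm⟩
    · refine Finset.card_image_le.trans ?_
      rw [Finset.card_product]
      exact Nat.mul_le_mul h2 h2'
  · refine Cov.false ?_ _
    rintro l ⟨l₂, z, l₁, hl, hz, -, -⟩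
    exact hex ⟨z, hz⟩

/-- The main counting property. -/
def Good (Y : Finset V) (B : Finset V → Prop) (K : ℕ) (F : Finset V → Finset V → Prop) : Prop :=
  ∀ b b', ¬ F b b' → Cov (fun l => Reach Y B b l b') (K ^ (b' \ b).card)

theorem Good.mono {Y : Finset V} {B : Finset V → Prop} {K K' : ℕ} {F F' : Finset V → Finset V → Prop}
    (h : Good Y B K F) (hK : K ≤ K') (hF : ∀ b b', F b b' → F' b b') : Good Y B K' F' := by
  intro b b' hb
  exact (h b b' (fun h' => hb (hF _ _ h'))).mono (fun _ h => h) (Nat.pow_le_pow_left hK _)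

theorem cov_self {Y : Finset V} {B : Finset V → Prop} {b : Finset V} : Cov (fun l => Reach Y B b l b) 1 :=
  ⟨{[]}, fun l hl => by simpa using hl.nil_of_self, by simp⟩

/-- Reduction of `Good` to nested pairs with at least one new coordinate. -/
theorem good_of_pos {Y : Finset V} {B : Finset V → Prop} {K : ℕ} {F : Finset V → Finset V → Prop}
    (h : ∀ b b', ¬ F b b' → b ⊆ b' → 1 ≤ (b' \ b).card →
      Cov (fun l => Reach Y B b l b') (K ^ (b' \ b).card)) : Good Y B K F := by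
  intro b b' hF
  by_cases hsub : b ⊆ b'
  · by_cases hc : 1 ≤ (b' \ b).card
    · exact h b b' hF hsub hc
    · have h0 : (b' \ b).card = 0 := by omega
      have h1 : b' ⊆ b := Finset.sdiff_eq_empty_iff_subset.1 (Finset.card_eq_zero.1 h0)
      have h2 : b = b' := hsub.antisymm h1
      subst h2
      rw [h0, pow_zero]
      exact cov_self
  · exact Cov.false (fun l hl => hsub hl.subset) _

/-- Base case: no `B`-set strictly between. -/
theorem good_point (Y : Finset V) (B : Finset V → Prop) :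
    Good Y B 2 (fun b b' => ∃ x, B x ∧ b ⊂ x ∧ x ⊂ b') := by
  intro b b' hF
  refine ⟨insert [] ((b' \ b).image (fun y => [y])), ?_, ?_⟩
  · intro l hl
    match l, hl with
    | [], _ => exact Finset.mem_insert_self _ _
    | [y], hl =>
      obtain ⟨-, c, hs, hr⟩ := hl
      have hr : b = c := hr
      subst hr
      refine Finset.mem_insert_of_mem (Finset.mem_image.2 ⟨y, ?_, rfl⟩)
      have : y ∈ b' ∩ Y := by rw [hs.2.2.2]; exact Finset.mem_insert_self _ _
      exact Finset.mem_sdiff.2 ⟨(Finset.mem_inter.1 this).1, hs.2.1⟩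
    | (y :: z :: l), hl =>
      obtain ⟨-, c, hs, hBc, c', hs', hr⟩ := hl
      exact absurd ⟨c, hBc, lt_of_le_of_lt hr.subset hs'.ssubset, hs.ssubset⟩ hF
  · refine (Finset.card_insert_le _ _).trans ?_
    have h1 : ((b' \ b).image (fun y => [y])).card ≤ (b' \ b).card := Finset.card_image_le
    have h2 : (b' \ b).card < 2 ^ (b' \ b).card := Nat.lt_two_pow_self
    omega

theorem card_sdiff_add {b c d : Finset V} (h1 : b ⊆ c) (h2 : c ⊆ d) :
    (c \ b).card + (d \ c).card = (d \ b).card := by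
  rw [Finset.card_sdiff_of_subset h1, Finset.card_sdiff_of_subset h2, Finset.card_sdiff_of_subset (h1.trans h2)]
  have := Finset.card_le_card h1
  have := Finset.card_le_card h2
  omega

theorem card_Icc_sdiff {b c : Finset V} (h : b ⊆ c) : (Finset.Icc b c).card = 2 ^ (c \ b).card := by
  rw [Finset.card_Icc_finset h, Finset.card_sdiff_of_subset h]

/-- Series composition. -/
theorem good_series {Y : Finset V} {B : Finset V → Prop} {K : ℕ} (hK : 1 ≤ K)
    {F₁ F₂ : Finset V → Finset V → Prop} (hirr : ∀ c, ¬ F₁ c c)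
    (h1 : Good Y B K F₁) (h2 : Good Y B K F₂) :
    Good Y B (8 * K) (fun b b' => ∃ c, F₁ b c ∧ F₂ c b') := by
  classical
  apply good_of_pos
  intro b b' hF hsub hL
  set L := (b' \ b).card with hLdef
  -- index set: pairs (c, d)
  have hcov2 : Cov (fun l => ∃ p ∈ (Finset.Icc b b' ×ˢ Finset.Icc b b'),
      (p.1 ⊆ p.2 ∧ ¬ F₁ b p.1 ∧ ¬ F₂ p.2 b') ∧ ∃ l₂ y l₁, l = l₂ ++ y :: l₁ ∧ Step Y p.1 y p.2 ∧
        Reach Y B p.2 l₂ b' ∧ Reach Y B b l₁ p.1)
      ((Finset.Icc b b' ×ˢ Finset.Icc b b').card * K ^ L) := by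
    refine Cov.const _ ?_
    rintro ⟨c, d⟩ hp
    rw [Finset.mem_product, Finset.mem_Icc, Finset.mem_Icc] at hp
    obtain ⟨⟨hc1, hc2⟩, ⟨hd1, hd2⟩⟩ := hp
    by_cases hcond : c ⊆ d ∧ ¬ F₁ b c ∧ ¬ F₂ d b'
    · obtain ⟨hcd, hf1, hf2⟩ := hcond
      have := Cov.join Y c d (h2 d b' hf2) (h1 b c hf1)
      refine this.mono (fun l hl => hl.2) ?_
      rw [← pow_add]
      apply Nat.pow_le_pow_right hK
      have e1 := card_sdiff_add hc1 hcd
      have e2 := card_sdiff_add hd1 hd2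
      dsimp only at *
      omega
    · exact Cov.false (fun l hl => hcond hl.1) _
  have hcardI : (Finset.Icc b b' ×ˢ Finset.Icc b b').card = 4 ^ L := by
    rw [Finset.card_product, card_Icc_sdiff hsub, ← hLdef, ← pow_add, ← two_mul, pow_mul]
    norm_num
  rw [hcardI] at hcov2
  by_cases hFb : F₁ b b'
  · refine hcov2.mono ?_ ?_
    · intro l hl
      rcases first_passage hirr hl with h | ⟨l₂, y, l₁, c, d, e1, e2, e3, e4, e5, e6, e7⟩
      · exact absurd hFb h
      · refine ⟨(c, d), ?_, ⟨e5.1, e3, fun h => hF ⟨d, e6, h⟩⟩, l₂, y, l₁, e1, e5, e7, e2⟩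
        rw [Finset.mem_product, Finset.mem_Icc, Finset.mem_Icc]
        exact ⟨⟨e2.subset, e5.1.trans e7.subset⟩, ⟨e2.subset.trans e5.1, e7.subset⟩⟩
    · rw [← mul_pow]
      apply Nat.pow_le_pow_left
      omega
  · refine (h1 b b' hFb).mono (fun _ h => h) ?_
    apply Nat.pow_le_pow_left
    omega

/-! ### Parallel composition -/

/-- `Hgt F b t c`: there is an `F`-chain of length `t` from `b` up to `c`. -/
def Hgt (F : Finset V → Finset V → Prop) (b : Finset V) : ℕ → Finset V → Prop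
  | 0, c => b ⊆ c
  | (t + 1), c => ∃ c₀, Hgt F b t c₀ ∧ F c₀ c

section levels

variable {F : Finset V → Finset V → Prop} {b b' : Finset V}

omit [DecidableEq V] in
theorem Hgt.sub (hS : ∀ c d, F c d → c ⊂ d) : ∀ {t : ℕ} {c : Finset V}, Hgt F b t c → b ⊆ c
  | 0, _, h => h
  | (_ + 1), _, h => by
    obtain ⟨c₀, h1, h2⟩ := h
    exact (Hgt.sub hS h1).trans (hS _ _ h2).1

omit [DecidableEq V] in
theorem Hgt.mono (hM : ∀ c d c' d', F c d → c' ⊆ c → d ⊆ d' → F c' d') :
    ∀ {t : ℕ} {c c' : Finset V}, Hgt F b t c → c ⊆ c' → Hgt F b t c'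
  | 0, _, _, h, hs => Finset.Subset.trans (h : b ⊆ _) hs
  | (_ + 1), _, _, h, hs => by
    obtain ⟨c₀, h1, h2⟩ := h
    exact ⟨c₀, h1, hM _ _ _ _ h2 (Finset.Subset.refl _) hs⟩

theorem Hgt.card (hS : ∀ c d, F c d → c ⊂ d) : ∀ {t : ℕ} {c : Finset V}, Hgt F b t c → t ≤ (c \ b).card
  | 0, _, _ => Nat.zero_le _
  | (t + 1), c, h => by
    obtain ⟨c₀, h1, h2⟩ := h
    have e1 := Hgt.card hS h1
    have e2 := card_sdiff_add (Hgt.sub hS h1) (hS _ _ h2).1
    have e3 : 0 < (c \ c₀).card := by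
      rw [Finset.card_pos]
      exact Finset.sdiff_nonempty.2 (hS _ _ h2).2
    omega

/-- Level functions: `h` on sets and `tt` on points. -/
theorem exists_levels (hM : ∀ c d c' d', F c d → c' ⊆ c → d ⊆ d' → F c' d') (hS : ∀ c d, F c d → c ⊂ d)
    (hNS : ∀ c d c' d', b ⊆ c → d ⊆ b' → b ⊆ c' → d' ⊆ b' → F c d → F c' d' → c ⊆ d' ∨ c' ⊆ d) :
    ∃ (h : Finset V → ℕ) (tt : V → ℕ),
      (∀ c, b ⊆ c → c ⊆ b' → h c ≤ (b' \ b).card) ∧
      (∀ c d, b ⊆ c → d ⊆ b' → F c d → h c + 1 ≤ h d) ∧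
      (∀ s, tt s ≤ (b' \ b).card + 1) ∧
      (∀ c d s, b ⊆ c → d ⊆ b' → F c d → s ∈ c → tt s ≤ h d) ∧
      (∀ c s, b ⊆ c → c ⊆ b' → tt s + 2 ≤ h c → s ∈ c) := by
  classical
  set h : Finset V → ℕ := fun c => Nat.findGreatest (fun t => Hgt F b t c) (c \ b).card with hdef
  have hspec : ∀ c, b ⊆ c → Hgt F b (h c) c := by
    intro c hc
    exact Nat.findGreatest_spec (P := fun t => Hgt F b t c) (Nat.zero_le _) hc
  have hle : ∀ c t, Hgt F b t c → t ≤ h c := by
    intro c t ht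
    exact Nat.le_findGreatest (Hgt.card hS ht) ht
  have H1 : ∀ c c', b ⊆ c → c ⊆ c' → h c ≤ h c' := fun c c' hc hcc' =>
    hle _ _ (Hgt.mono hM (hspec c hc) hcc')
  have H4 : ∀ c, b ⊆ c → c ⊆ b' → h c ≤ (b' \ b).card := by
    intro c hc hc'
    have e1 : h c ≤ (c \ b).card := Nat.findGreatest_le _
    have e2 := card_sdiff_add hc hc'
    omega
  have H2 : ∀ c d, b ⊆ c → F c d → h c + 1 ≤ h d := by
    intro c d hc hF
    exact hle _ _ ⟨c, hspec c hc, hF⟩
  have H3 : ∀ c, b ⊆ c → 1 ≤ h c → ∃ c₀, b ⊆ c₀ ∧ F c₀ c ∧ h c ≤ h c₀ + 1 := by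
    intro c hc h1
    have hs := hspec c hc
    obtain ⟨t, ht⟩ : ∃ t, h c = t + 1 := ⟨h c - 1, by omega⟩
    rw [ht] at hs
    obtain ⟨c₀, h2, h3⟩ := hs
    refine ⟨c₀, Hgt.sub hS h2, h3, ?_⟩
    have := hle _ _ h2
    omega
  set Q : V → ℕ → Prop := fun s t =>
    (∃ c' d', s ∈ c' ∧ b ⊆ c' ∧ d' ⊆ b' ∧ F c' d' ∧ h d' ≤ t) ∨ t = (b' \ b).card + 1 with hQ
  have hex : ∀ s, ∃ t, Q s t := fun s => ⟨(b' \ b).card + 1, Or.inr rfl⟩
  refine ⟨h, fun s => Nat.find (hex s), H4, fun c d hc _ hF => H2 c d hc hF, ?_, ?_, ?_⟩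
  · intro s
    exact Nat.find_min' (hex s) (Or.inr rfl)
  · intro c d s hc hd hF hs
    exact Nat.find_min' (hex s) (Or.inl ⟨c, d, hs, hc, hd, hF, le_refl _⟩)
  · intro c s hc hc' hle2
    have hle2' : Nat.find (hex s) + 2 ≤ h c := hle2
    rcases Nat.find_spec (hex s) with ⟨c', d', hs, hc'1, hd', hF', hh⟩ | heq
    · obtain ⟨c₀, k1, k2, k3⟩ := H3 c hc (by omega)
      rcases hNS c₀ c c' d' k1 hc' hc'1 hd' k2 hF' with h1 | h1
      · have := H1 c₀ d' k1 h1
        omega
      · exact h1 hs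
    · have := H4 c hc hc'
      omega

end levels

/-- Two non-nested full pairs inside `[b, b']`. -/
def Par (F : Finset V → Finset V → Prop) (b b' : Finset V) : Prop :=
  ∃ c d c' d', b ⊆ c ∧ d ⊆ b' ∧ b ⊆ c' ∧ d' ⊆ b' ∧ F c d ∧ F c' d' ∧ ¬ c ⊆ d' ∧ ¬ c' ⊆ d

section next

variable (Y : Finset V) (B : Finset V → Prop) (F : Finset V → Finset V → Prop) (b' : Finset V)
  (h : Finset V → ℕ) (L : ℕ)

/-- `l` labels a path from `e` to `b'` whose next greedy set has level `τ`. -/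
def NextP (e : Finset V) (τ : ℕ) (l : List V) : Prop :=
  (¬ F e b' ∧ τ = L + 1 ∧ Reach Y B e l b') ∨
  ∃ l₂ y l₁ c d, l = l₂ ++ y :: l₁ ∧ Reach Y B e l₁ c ∧ ¬ F e c ∧ Step Y c y d ∧ F e d ∧
    Reach Y B d l₂ b' ∧ h d = τ

/-- The potential. -/
def Phi (tt : V → ℕ) (e : Finset V) (τ : ℕ) : ℕ := ∑ s ∈ b' \ e, min 3 (tt s + 2 - τ)

end next

theorem phi_step {b' : Finset V} {tt : V → ℕ} {e d w : Finset V} {τ σ : ℕ} (hστ : τ + 1 ≤ σ)
    (hed : e ⊆ d) (hd : ∀ s ∈ b' \ e, tt s + 2 ≤ τ → s ∈ d)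
    (hw : w = (b' \ e).filter (fun s => τ < tt s + 2 ∧ tt s ≤ σ)) :
    w.card + Phi b' tt d σ ≤ Phi b' tt e τ := by
  classical
  subst hw
  unfold Phi
  rw [Finset.card_filter]
  have h1 : ∑ s ∈ b' \ d, min 3 (tt s + 2 - σ) = ∑ s ∈ b' \ e, (if s ∉ d then min 3 (tt s + 2 - σ) else 0) := by
    rw [← Finset.sum_filter]
    congr 1
    ext s
    simp only [Finset.mem_sdiff, Finset.mem_filter]
    constructor
    · rintro ⟨a1, a2⟩
      exact ⟨⟨a1, fun h => a2 (hed h)⟩, a2⟩
    · rintro ⟨⟨a1, -⟩, a2⟩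
      exact ⟨a1, a2⟩
  rw [h1, ← Finset.sum_add_distrib]
  apply Finset.sum_le_sum
  intro s hs
  have hds := hd s hs
  by_cases hsd : s ∈ d
  · rw [if_neg (not_not_intro hsd)]
    split_ifs with c1 <;> omega
  · have hlt : ¬ (tt s + 2 ≤ τ) := fun h => hsd (hds h)
    rw [if_pos hsd]
    split_ifs with c1 <;> omega

/-- Main recursion for the parallel case. -/
theorem cov_next {Y : Finset V} {B : Finset V → Prop} {F : Finset V → Finset V → Prop} {b b' : Finset V}
    {K : ℕ} (hK : 1 ≤ K) (hG : Good Y B K F)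
    (hS : ∀ c d, F c d → c ⊂ d) (h : Finset V → ℕ) (tt : V → ℕ) (L : ℕ)
    (T0 : ∀ c, b ⊆ c → c ⊆ b' → h c ≤ L)
    (T1 : ∀ c d, b ⊆ c → d ⊆ b' → F c d → h c + 1 ≤ h d)
    (T2 : ∀ s, tt s ≤ L + 1)
    (T3 : ∀ c d s, b ⊆ c → d ⊆ b' → F c d → s ∈ c → tt s ≤ h d)
    (T4 : ∀ c s, b ⊆ c → c ⊆ b' → tt s + 2 ≤ h c → s ∈ c) :
    ∀ (m : ℕ) (e : Finset V) (τ : ℕ), (b' \ e).card ≤ m → b ⊆ e → e ⊆ b' → τ ≤ L + 1 →
      Cov (NextP Y B F b' h L e τ)
        (2 ^ (Phi b' tt e τ) * (2 ^ (L + 1 - τ) * (2 * K) ^ (b' \ e).card)) := by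
  classical
  intro m
  induction m with
  | zero =>
    intro e τ hm hbe heb' hτ
    -- e = b', no F-passage is possible
    have h0 : (b' \ e).card = 0 := by omega
    have h1 : b' ⊆ e := Finset.sdiff_eq_empty_iff_subset.1 (Finset.card_eq_zero.1 h0)
    have h2 : e = b' := heb'.antisymm h1
    subst h2
    have hcov : Cov (fun l => Reach Y B e l e) 1 := cov_self
    refine hcov.mono ?_ ?_
    · rintro l (⟨-, -, hr⟩ | ⟨l₂, y, l₁, c, d, -, h1, -, h3, h4, h5, -⟩)
      · exact hr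
      · exact absurd h5.subset (hS _ _ h4).2
    · exact Nat.one_le_iff_ne_zero.2 (by positivity)
  | succ m ih =>
    intro e τ hm hbe heb' hτ
    have hposK : 0 < K := hK
    rcases Nat.lt_or_ge L τ with hLτ | hLτ
    · -- τ = L + 1
      have hτ' : τ = L + 1 := by omega
      by_cases hF : F e b'
      · refine Cov.false ?_ _
        rintro l (⟨h1, -, -⟩ | ⟨l₂, y, l₁, c, d, -, -, -, h3, h4, h5, h6⟩)
        · exact h1 hF
        · have hed : e ⊆ d := (hS _ _ h4).1
          have := T0 d (hbe.trans hed) h5.subset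
          omega
      · refine (hG e b' hF).mono ?_ ?_
        · rintro l (⟨-, -, hr⟩ | ⟨l₂, y, l₁, c, d, -, -, -, h3, h4, h5, h6⟩)
          · exact hr
          · have hed : e ⊆ d := (hS _ _ h4).1
            have := T0 d (hbe.trans hed) h5.subset
            omega
        · have e1 : K ^ (b' \ e).card ≤ (2 * K) ^ (b' \ e).card := Nat.pow_le_pow_left (by omega) _
          have e2 : 1 ≤ 2 ^ (Phi b' tt e τ) := Nat.one_le_two_pow
          have e3 : 1 ≤ 2 ^ (L + 1 - τ) := Nat.one_le_two_pow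
          calc K ^ (b' \ e).card ≤ (2 * K) ^ (b' \ e).card := e1
            _ = 1 * (1 * (2 * K) ^ (b' \ e).card) := by ring
            _ ≤ _ := Nat.mul_le_mul e2 (Nat.mul_le_mul e3 (le_refl _))
    · -- τ ≤ L
      -- the free coordinates
      set W : ℕ → Finset V := fun σ => (b' \ e).filter (fun s => τ < tt s + 2 ∧ tt s ≤ σ) with hW
      set base : Finset V := e ∪ (b' \ e).filter (fun s => tt s + 2 ≤ τ) with hbase
      have hebase : e ⊆ base := Finset.subset_union_left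
      have hbaseb' : base ⊆ b' := Finset.union_subset heb' ((Finset.filter_subset _ _).trans Finset.sdiff_subset)
      -- claim for a fixed set d
      have hfix : ∀ σ, τ + 1 ≤ σ → σ ≤ L + 1 → ∀ w ∈ (W σ).powerset,
          Cov (fun l => F e (base ∪ w) ∧ ∃ c ∈ Finset.Icc e (base ∪ w), ¬ F e c ∧ ∃ l₂ y l₁, l = l₂ ++ y :: l₁ ∧
            Step Y c y (base ∪ w) ∧ NextP Y B F b' h L (base ∪ w) σ l₂ ∧ Reach Y B e l₁ c)
          (2 ^ (Phi b' tt (base ∪ w) σ) * (2 ^ (L + 1 - σ) * (2 * K) ^ (b' \ e).card)) := by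
        intro σ hσ1 hσ2 w hw
        have hwW : w ⊆ W σ := Finset.mem_powerset.1 hw
        have hwb' : w ⊆ b' := hwW.trans ((Finset.filter_subset _ _).trans Finset.sdiff_subset)
        have hdb' : base ∪ w ⊆ b' := Finset.union_subset hbaseb' hwb'
        have hed : e ⊆ base ∪ w := hebase.trans Finset.subset_union_left
        by_cases hF : F e (base ∪ w)
        · have hlt : 0 < ((base ∪ w) \ e).card := by
            rw [Finset.card_pos]
            exact Finset.sdiff_nonempty.2 (hS _ _ hF).2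
          have hsum := card_sdiff_add hed hdb'
          have hih := ih (base ∪ w) σ (by omega) (hbe.trans hed) hdb' hσ2
          have hc : Cov (fun l => ∃ c ∈ Finset.Icc e (base ∪ w), ¬ F e c ∧ ∃ l₂ y l₁, l = l₂ ++ y :: l₁ ∧
              Step Y c y (base ∪ w) ∧ NextP Y B F b' h L (base ∪ w) σ l₂ ∧ Reach Y B e l₁ c)
              ((Finset.Icc e (base ∪ w)).card *
                ((2 ^ (Phi b' tt (base ∪ w) σ) * (2 ^ (L + 1 - σ) * (2 * K) ^ (b' \ (base ∪ w)).card)) *
                  K ^ ((base ∪ w) \ e).card)) := by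
            refine Cov.const _ ?_
            intro c hc
            rw [Finset.mem_Icc] at hc
            by_cases hFc : F e c
            · exact Cov.false (fun l hl => hl.1 hFc) _
            · refine (Cov.join Y c (base ∪ w) hih (hG e c hFc)).mono (fun l hl => hl.2) ?_
              refine Nat.mul_le_mul_left _ (Nat.pow_le_pow_right hK ?_)
              exact Finset.card_le_card (Finset.sdiff_subset_sdiff hc.2 (Finset.Subset.refl _))
          refine hc.mono (fun l hl => hl.2) ?_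
          rw [card_Icc_sdiff hed]
          apply le_of_eq
          rw [← hsum, pow_add (2 * K), mul_pow 2 K ((base ∪ w) \ e).card]
          ring
        · exact Cov.false (fun l hl => hF hl.1) _
      have hfix2 : ∀ σ, τ + 1 ≤ σ → σ ≤ L + 1 →
          Cov (fun l => ∃ w ∈ (W σ).powerset, F e (base ∪ w) ∧ ∃ c ∈ Finset.Icc e (base ∪ w), ¬ F e c ∧
            ∃ l₂ y l₁, l = l₂ ++ y :: l₁ ∧
            Step Y c y (base ∪ w) ∧ NextP Y B F b' h L (base ∪ w) σ l₂ ∧ Reach Y B e l₁ c)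
          (2 ^ (L + 1 - σ) * (2 ^ (Phi b' tt e τ) * (2 * K) ^ (b' \ e).card)) := by
        intro σ hσ1 hσ2
        have hbd : ∀ w ∈ (W σ).powerset, (W σ).card + Phi b' tt (base ∪ w) σ ≤ Phi b' tt e τ := by
          intro w hw
          refine phi_step hσ1 (hebase.trans Finset.subset_union_left) ?_ rfl
          intro s hs hs2
          exact Finset.mem_union_left _ (Finset.mem_union_right _ (Finset.mem_filter.2 ⟨hs, hs2⟩))
        have hc : Cov (fun l => ∃ w ∈ (W σ).powerset, F e (base ∪ w) ∧ ∃ c ∈ Finset.Icc e (base ∪ w), ¬ F e c ∧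
            ∃ l₂ y l₁, l = l₂ ++ y :: l₁ ∧
            Step Y c y (base ∪ w) ∧ NextP Y B F b' h L (base ∪ w) σ l₂ ∧ Reach Y B e l₁ c)
            ((W σ).powerset.card * (2 ^ (Phi b' tt e τ - (W σ).card) *
              (2 ^ (L + 1 - σ) * (2 * K) ^ (b' \ e).card))) := by
          refine Cov.const _ ?_
          intro w hw
          refine (hfix σ hσ1 hσ2 w hw).mono (fun l hl => hl) ?_
          refine Nat.mul_le_mul_right _ (Nat.pow_le_pow_right (by norm_num) ?_)
          have := hbd w hw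
          omega
        refine hc.mono (fun l hl => hl) ?_
        rw [Finset.card_powerset]
        have hWle : (W σ).card ≤ Phi b' tt e τ := by
          have := hbd ∅ (Finset.empty_mem_powerset _)
          omega
        apply le_of_eq
        have : 2 ^ (W σ).card * 2 ^ (Phi b' tt e τ - (W σ).card) = 2 ^ (Phi b' tt e τ) := by
          rw [← pow_add]
          congr 1
          omega
        rw [← mul_assoc, this]
        ring
      -- sum over σ = L + 1 - i
      have hc : Cov (fun l => ∃ i ∈ Finset.range (L + 1 - τ), ∃ w ∈ (W (L + 1 - i)).powerset, F e (base ∪ w) ∧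
          ∃ c ∈ Finset.Icc e (base ∪ w), ¬ F e c ∧ ∃ l₂ y l₁, l = l₂ ++ y :: l₁ ∧
          Step Y c y (base ∪ w) ∧ NextP Y B F b' h L (base ∪ w) (L + 1 - i) l₂ ∧ Reach Y B e l₁ c)
          (∑ i ∈ Finset.range (L + 1 - τ), 2 ^ i * (2 ^ (Phi b' tt e τ) * (2 * K) ^ (b' \ e).card)) := by
        refine Cov.sum _ ?_
        intro i hi
        rw [Finset.mem_range] at hi
        refine (hfix2 (L + 1 - i) (by omega) (by omega)).mono (fun l hl => hl) ?_
        refine Nat.mul_le_mul_right _ (Nat.pow_le_pow_right (by norm_num) (by omega))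
      refine hc.mono ?_ ?_
      · rintro l (⟨-, h1, -⟩ | ⟨l₂, y, l₁, c, d, hl, h1, h2, h3, h4, h5, h6⟩)
        · omega
        · have hed : e ⊆ d := (hS _ _ h4).1
          have hbd : b ⊆ d := hbe.trans hed
          have hdb' : d ⊆ b' := h5.subset
          -- next level from d
          obtain ⟨σ, hσ1, hσ2, hσ3, hnext⟩ : ∃ σ, τ + 1 ≤ σ ∧ σ ≤ L + 1 ∧ (∀ s ∈ d, tt s ≤ σ) ∧
              NextP Y B F b' h L d σ l₂ := by
            rcases first_passage (fun c hcc => (hS c c hcc).2 (Finset.Subset.refl _)) h5 with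
              g1 | ⟨l₂', y', l₁', c', d', g1, g2, g3, -, g5, g6, g7⟩
            · exact ⟨L + 1, by omega, le_refl _, fun s _ => T2 s, Or.inl ⟨g1, rfl, h5⟩⟩
            · refine ⟨h d', ?_, ?_, ?_, Or.inr ⟨l₂', y', l₁', c', d', g1, g2, g3, g5, g6, g7, rfl⟩⟩
              · have := T1 d d' hbd g7.subset g6
                omega
              · have := T0 d' (hbd.trans (hS _ _ g6).1) g7.subset
                omega
              · intro s hs
                exact T3 d d' s hbd g7.subset g6 hs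
          have hdecomp : base ∪ (d ∩ W σ) = d := by
            ext s
            rw [Finset.mem_union, Finset.mem_inter, hbase, Finset.mem_union, Finset.mem_filter, hW,
              Finset.mem_filter, Finset.mem_sdiff]
            constructor
            · rintro ((hs | ⟨-, hs⟩) | ⟨hs, -⟩)
              · exact hed hs
              · exact T4 d s hbd hdb' (by omega)
              · exact hs
            · intro hs
              by_cases hse : s ∈ e
              · exact Or.inl (Or.inl hse)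
              · have hsb' := hdb' hs
                have := hσ3 s hs
                rcases Nat.lt_or_ge τ (tt s + 2) with hlt | hge
                · exact Or.inr ⟨hs, ⟨hsb', hse⟩, hlt, this⟩
                · exact Or.inl (Or.inr ⟨⟨hsb', hse⟩, hge⟩)
          refine ⟨L + 1 - σ, Finset.mem_range.2 (by omega), d ∩ W σ, ?_, ?_⟩
          · have : L + 1 - (L + 1 - σ) = σ := by omega
            rw [this]
            exact Finset.mem_powerset.2 Finset.inter_subset_right
          · have : L + 1 - (L + 1 - σ) = σ := by omega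
            rw [this, hdecomp]
            exact ⟨h4, c, Finset.mem_Icc.2 ⟨h1.subset, h3.1⟩, h2, l₂, y, l₁, hl, h3, hnext, h1⟩
      · rw [← Finset.sum_mul]
        have hgeo : ∑ i ∈ Finset.range (L + 1 - τ), 2 ^ i ≤ 2 ^ (L + 1 - τ) :=
          (Nat.geomSum_lt (le_refl 2) (fun k hk => Finset.mem_range.1 hk)).le
        calc (∑ i ∈ Finset.range (L + 1 - τ), 2 ^ i) * (2 ^ (Phi b' tt e τ) * (2 * K) ^ (b' \ e).card)
            ≤ 2 ^ (L + 1 - τ) * (2 ^ (Phi b' tt e τ) * (2 * K) ^ (b' \ e).card) := Nat.mul_le_mul_right _ hgeo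
          _ = _ := by ring

/-- Parallel composition. -/
theorem good_par {Y : Finset V} {B : Finset V → Prop} {K : ℕ} (hK : 1 ≤ K)
    {F : Finset V → Finset V → Prop} (hM : ∀ c d c' d', F c d → c' ⊆ c → d ⊆ d' → F c' d')
    (hS : ∀ c d, F c d → c ⊂ d) (hG : Good Y B K F) :
    Good Y B (128 * K) (Par F) := by
  classical
  apply good_of_pos
  intro b b' hF hsub hL
  have hNS : ∀ c d c' d', b ⊆ c → d ⊆ b' → b ⊆ c' → d' ⊆ b' → F c d → F c' d' → c ⊆ d' ∨ c' ⊆ d := by
    intro c d c' d' h1 h2 h3 h4 h5 h6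
    by_contra hcon
    push Not at hcon
    exact hF ⟨c, d, c', d', h1, h2, h3, h4, h5, h6, hcon.1, hcon.2⟩
  obtain ⟨h, tt, T0, T1, T2, T3, T4⟩ := exists_levels hM hS hNS
  set L := (b' \ b).card with hLdef
  have hnext := cov_next (b := b) (b' := b') hK hG hS h tt L T0 T1 T2 T3 T4 L b
  have hbd : ∀ τ ∈ Finset.range (L + 2), Cov (NextP Y B F b' h L b τ)
      (2 ^ (L + 1 - τ) * (8 ^ L * (2 * K) ^ L)) := by
    intro τ hτ
    rw [Finset.mem_range] at hτ
    refine (hnext τ (le_refl _) (Finset.Subset.refl _) hsub (by omega)).mono (fun l hl => hl) ?_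
    have hphi : Phi b' tt b τ ≤ 3 * L := by
      unfold Phi
      calc ∑ s ∈ b' \ b, min 3 (tt s + 2 - τ) ≤ ∑ s ∈ b' \ b, 3 :=
            Finset.sum_le_sum (fun s _ => min_le_left _ _)
        _ = 3 * L := by rw [Finset.sum_const, smul_eq_mul, ← hLdef]; ring
    have h8 : 2 ^ (Phi b' tt b τ) ≤ 8 ^ L := by
      calc 2 ^ (Phi b' tt b τ) ≤ 2 ^ (3 * L) := Nat.pow_le_pow_right (by norm_num) hphi
        _ = 8 ^ L := by rw [pow_mul]; norm_num
    calc 2 ^ (Phi b' tt b τ) * (2 ^ (L + 1 - τ) * (2 * K) ^ (b' \ b).card)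
        ≤ 8 ^ L * (2 ^ (L + 1 - τ) * (2 * K) ^ (b' \ b).card) := Nat.mul_le_mul_right _ h8
      _ = _ := by rw [← hLdef]; ring
  have hc := Cov.sum (Finset.range (L + 2)) hbd
  refine hc.mono ?_ ?_
  · intro l hl
    rcases first_passage (fun c hcc => (hS c c hcc).2 (Finset.Subset.refl _)) hl with
      g1 | ⟨l₂, y, l₁, c, d, g1, g2, g3, -, g5, g6, g7⟩
    · exact ⟨L + 1, Finset.mem_range.2 (by omega), Or.inl ⟨g1, rfl, hl⟩⟩
    · refine ⟨h d, Finset.mem_range.2 ?_, Or.inr ⟨l₂, y, l₁, c, d, g1, g2, g3, g5, g6, g7, rfl⟩⟩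
      have := T0 d (hS _ _ g6).1 g7.subset
      omega
  · rw [← Finset.sum_mul]
    have hgeo : ∑ τ ∈ Finset.range (L + 2), 2 ^ (L + 1 - τ) ≤ 2 ^ (L + 2) := by
      have hrefl : ∑ τ ∈ Finset.range (L + 2), 2 ^ (L + 1 - τ) = ∑ τ ∈ Finset.range (L + 2), 2 ^ τ := by
        rw [← Finset.sum_range_reflect]
        apply Finset.sum_congr rfl
        intro i hi
        rw [Finset.mem_range] at hi
        congr 1
        omega
      rw [hrefl]
      exact (Nat.geomSum_lt (le_refl 2) (fun k hk => Finset.mem_range.1 hk)).le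
    have h2 : 2 ^ (L + 2) ≤ 8 ^ L := by
      have : (8 : ℕ) ^ L = 2 ^ (3 * L) := by rw [pow_mul]; norm_num
      rw [this]
      exact Nat.pow_le_pow_right (by norm_num) (by omega)
    calc (∑ τ ∈ Finset.range (L + 2), 2 ^ (L + 1 - τ)) * (8 ^ L * (2 * K) ^ L)
        ≤ 8 ^ L * (8 ^ L * (2 * K) ^ L) := Nat.mul_le_mul_right _ (hgeo.trans h2)
      _ = (128 * K) ^ L := by
        rw [← mul_pow, ← mul_pow]
        congr 1
        ring

end Pool.Agent.Helper71_NFree
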