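import Mathlib

set_option autoImplicit false

/-! Structure of finite N-free posets: series or parallel splitting. -/

namespace Pool.Agent.Helper71_NFree

variable {α : Type} [PartialOrder α]

/-- No induced N inside the finite set `S`. -/
def NFreeOn (S : Finset α) : Prop :=
  ¬ ∃ a ∈ S, ∃ b ∈ S, ∃ c ∈ S, ∃ d ∈ S,
    a < c ∧ b < c ∧ b < d ∧ ¬ a ≤ b ∧ ¬ b ≤ a ∧ ¬ c ≤ d ∧ ¬ d ≤ c ∧ ¬ a ≤ d ∧ ¬ d ≤ a

theorem NFreeOn.mono {S T : Finset α} (h : NFreeOn T) (hST : S ⊆ T) : NFreeOn S := by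
  rintro ⟨a, ha, b, hb, c, hc, d, hd, h'⟩
  exact h ⟨a, hST ha, b, hST hb, c, hST hc, d, hST hd, h'⟩

/-- `A` is a series piece of `S`: everything in `A` lies below everything else. -/
def SerSplit (S A : Finset α) : Prop :=
  A ⊆ S ∧ A.Nonempty ∧ (∃ x ∈ S, x ∉ A) ∧ ∀ a ∈ A, ∀ b ∈ S, b ∉ A → a < b

/-- `A` is a parallel piece of `S`: everything in `A` is incomparable to everything else. -/
def ParSplit (S A : Finset α) : Prop :=
  A ⊆ S ∧ A.Nonempty ∧ (∃ x ∈ S, x ∉ A) ∧ ∀ a ∈ A, ∀ b ∈ S, b ∉ A → ¬ a ≤ b ∧ ¬ b ≤ a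

theorem ParSplit.compl [DecidableEq α] {S A : Finset α} (h : ParSplit S A) : ParSplit S (S \ A) := by
  obtain ⟨h1, h2, ⟨x, hxS, hxA⟩, h4⟩ := h
  refine ⟨Finset.sdiff_subset, ⟨x, by simp [hxS, hxA]⟩, ?_, ?_⟩
  · obtain ⟨y, hy⟩ := h2
    exact ⟨y, h1 hy, by simp [hy]⟩
  · intro a ha b hb hbA
    rw [Finset.mem_sdiff] at ha
    have hb' : b ∈ A := by
      by_contra hcon
      exact hbA (Finset.mem_sdiff.2 ⟨hb, hcon⟩)
    have := h4 b hb' a ha.1 ha.2
    exact ⟨this.2, this.1⟩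

/-- If `x` is maximal and `S \ {x}` splits in series then `S` splits. -/
theorem split_of_ser [DecidableEq α] {S A : Finset α} {x : α} (hN : NFreeOn S) (hx : x ∈ S)
    (hmax : ∀ y ∈ S, ¬ x < y) (hA : SerSplit (S.erase x) A) :
    ∃ A', SerSplit S A' ∨ ParSplit S A' := by
  classical
  obtain ⟨hAS, hAne, ⟨b₀, hb₀S, hb₀A⟩, hlt⟩ := hA
  have hxA : x ∉ A := fun h => by simpa using hAS h
  have hAS' : A ⊆ S := hAS.trans (Finset.erase_subset _ _)
  have hb₀S' : b₀ ∈ S := Finset.mem_of_mem_erase hb₀S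
  have hb₀x : b₀ ≠ x := Finset.ne_of_mem_erase hb₀S
  by_cases hall : ∀ a ∈ A, a < x
  · refine ⟨A, Or.inl ⟨hAS', hAne, ⟨x, hx, hxA⟩, ?_⟩⟩
    intro a ha b hb hbA
    by_cases hbx : b = x
    · subst hbx; exact hall a ha
    · exact hlt a ha b (Finset.mem_erase.2 ⟨hbx, hb⟩) hbA
  · push Not at hall
    obtain ⟨a₁, ha₁, ha₁x⟩ := hall
    have hinc : ∀ a ∈ A, ¬ a < x → ¬ a ≤ x ∧ ¬ x ≤ a := by
      intro a ha hax
      have hne : a ≠ x := fun h => hxA (h ▸ ha)
      refine ⟨fun h => hax (lt_of_le_of_ne h hne), fun h => ?_⟩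
      exact hmax a (hAS' ha) (lt_of_le_of_ne h (Ne.symm hne))
    -- nothing outside A is comparable with x
    have hBx : ∀ b ∈ S, b ∉ A → b ≠ x → ¬ b ≤ x ∧ ¬ x ≤ b := by
      intro b hb hbA hbx
      have hab : a₁ < b := hlt a₁ ha₁ b (Finset.mem_erase.2 ⟨hbx, hb⟩) hbA
      refine ⟨fun h => ha₁x (lt_of_lt_of_le hab h), fun h => ?_⟩
      exact hmax b hb (lt_of_le_of_ne h (Ne.symm hbx))
    by_cases hex : ∃ a ∈ A, a < x
    · -- series split by A' = {a ∈ A | a < x}
      obtain ⟨a₀, ha₀, ha₀x⟩ := hex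
      refine ⟨A.filter (fun a => a < x), Or.inl ⟨(Finset.filter_subset _ _).trans hAS', ⟨a₀, by simp [ha₀, ha₀x]⟩,
        ⟨x, hx, by simp⟩, ?_⟩⟩
      intro a ha b hb hbA
      rw [Finset.mem_filter] at ha hbA
      obtain ⟨haA, hax⟩ := ha
      by_cases hbx : b = x
      · subst hbx; exact hax
      · by_cases hbA' : b ∈ A
        · have hbx' : ¬ b < x := fun h => hbA ⟨hbA', h⟩
          have hbinc := hinc b hbA' hbx'
          -- a, b ∈ A, a < x, b ∥ x, both below b₀
          have hbb₀ : b < b₀ := hlt b hbA' b₀ hb₀S hb₀A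
          have hab₀ : a < b₀ := hlt a haA b₀ hb₀S hb₀A
          by_contra hnab
          have hnab' : ¬ a ≤ b := by
            intro h
            rcases lt_or_eq_of_le h with h1 | h1
            · exact hnab h1
            · subst h1; exact hbx' hax
          have hnba : ¬ b ≤ a := fun h => hbx' (lt_of_le_of_lt h hax)
          have hb₀inc := hBx b₀ hb₀S' hb₀A hb₀x
          exact hN ⟨b, hb, a, hAS' haA, b₀, hb₀S', x, hx, hbb₀, hab₀, hax, hnba, hnab', hb₀inc.1, hb₀inc.2,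
            hbinc.1, hbinc.2⟩
        · exact hlt a haA b (Finset.mem_erase.2 ⟨hbx, hb⟩) hbA'
    · -- x is incomparable to everything
      push Not at hex
      refine ⟨{x}, Or.inr ⟨by simpa using hx, by simp, ⟨b₀, hb₀S', by simpa using hb₀x⟩, ?_⟩⟩
      intro a ha b hb hbx
      rw [Finset.mem_singleton] at ha hbx
      subst ha
      by_cases hbA : b ∈ A
      · have := hinc b hbA (hex b hbA)
        exact ⟨this.2, this.1⟩
      · have := hBx b hb hbA hbx
        exact ⟨this.2, this.1⟩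

/-- Auxiliary: `x` maximal, `S \ {x}` splits in parallel via `A`, some `a₁ ∈ A` is incomparable to `x`,
while some `b₀ ∉ A` is below `x`. Then `S` splits in parallel. -/
theorem split_of_par_aux [DecidableEq α] {S A : Finset α} {x : α} (hN : NFreeOn S) (hx : x ∈ S)
    (hmax : ∀ y ∈ S, ¬ x < y) (hA : ParSplit (S.erase x) A)
    (h1 : ∃ a ∈ A, ¬ a < x) (h2 : ∃ b ∈ S, b ∉ A ∧ b < x) :
    ∃ A', ParSplit S A' := by
  classical
  obtain ⟨hAS, hAne, -, hinc⟩ := hA
  have hxA : x ∉ A := fun h => by simpa using hAS h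
  have hAS' : A ⊆ S := hAS.trans (Finset.erase_subset _ _)
  obtain ⟨a₁, ha₁, ha₁x⟩ := h1
  obtain ⟨b₀, hb₀S, hb₀A, hb₀x⟩ := h2
  refine ⟨A.filter (fun a => ¬ a < x), (Finset.filter_subset _ _).trans hAS', ⟨a₁, by simp [ha₁, ha₁x]⟩,
    ⟨x, hx, by simp [hxA]⟩, ?_⟩
  intro a ha b hb hbA
  rw [Finset.mem_filter] at ha
  obtain ⟨haA, hax⟩ := ha
  have hne : a ≠ x := fun h => hxA (h ▸ haA)
  have haxi : ¬ a ≤ x ∧ ¬ x ≤ a :=
    ⟨fun h => hax (lt_of_le_of_ne h hne), fun h => hmax a (hAS' haA) (lt_of_le_of_ne h (Ne.symm hne))⟩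
  by_cases hbx : b = x
  · subst hbx; exact haxi
  · by_cases hbA' : b ∈ A
    · have hbx' : b < x := by
        by_contra hcon
        exact hbA (Finset.mem_filter.2 ⟨hbA', hcon⟩)
      have hnab : ¬ a ≤ b := fun h => hax (lt_of_le_of_lt h hbx')
      refine ⟨hnab, fun hba => ?_⟩
      have hba' : b < a := lt_of_le_of_ne hba (fun h => hnab (h ▸ le_refl _))
      -- N : b₀ < x, b < x, b < a
      have hb₀e : b₀ ∈ S.erase x := Finset.mem_erase.2 ⟨ne_of_lt hb₀x, hb₀S⟩
      have i1 := hinc b hbA' b₀ hb₀e hb₀A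
      have i2 := hinc a haA b₀ hb₀e hb₀A
      exact hN ⟨b₀, hb₀S, b, hb, x, hx, a, hAS' haA, hb₀x, hbx', hba', i1.2, i1.1, haxi.2, haxi.1, i2.2, i2.1⟩
    · exact hinc a haA b (Finset.mem_erase.2 ⟨hbx, hb⟩) hbA'

/-- If `x` is maximal and `S \ {x}` splits in parallel then `S` splits. -/
theorem split_of_par [DecidableEq α] {S A : Finset α} {x : α} (hN : NFreeOn S) (hx : x ∈ S)
    (hmax : ∀ y ∈ S, ¬ x < y) (hA : ParSplit (S.erase x) A) :
    ∃ A', SerSplit S A' ∨ ParSplit S A' := by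
  have hA' := hA
  obtain ⟨hAS, hAne, ⟨b₁, hb₁S, hb₁A⟩, hinc⟩ := hA'
  have hxA : x ∉ A := fun h => by simpa using hAS h
  have hAS' : A ⊆ S := hAS.trans (Finset.erase_subset _ _)
  have hcomp : ∀ b ∈ S, b ≠ x → ¬ b < x → ¬ b ≤ x ∧ ¬ x ≤ b := fun b hb hne hlt =>
    ⟨fun h => hlt (lt_of_le_of_ne h hne), fun h => hmax b hb (lt_of_le_of_ne h (Ne.symm hne))⟩
  by_cases hB : ∃ b ∈ S, b ∉ A ∧ b < x
  · by_cases hAx : ∃ a ∈ A, a < x
    · by_cases hall : ∀ b ∈ S, b ≠ x → b < x
      · refine ⟨S.erase x, Or.inl ⟨Finset.erase_subset _ _, ⟨b₁, hb₁S⟩, ⟨x, hx, by simp⟩, ?_⟩⟩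
        intro a ha b hb hbe
        have hbx : b = x := by
          by_contra hcon
          exact hbe (Finset.mem_erase.2 ⟨hcon, hb⟩)
        subst hbx
        exact hall a (Finset.mem_of_mem_erase ha) (Finset.ne_of_mem_erase ha)
      · push Not at hall
        obtain ⟨u, huS, hux, hunx⟩ := hall
        by_cases huA : u ∈ A
        · obtain ⟨A', hA'⟩ := split_of_par_aux hN hx hmax hA ⟨u, huA, hunx⟩ hB
          exact ⟨A', Or.inr hA'⟩
        · have hue : u ∈ S.erase x := Finset.mem_erase.2 ⟨hux, huS⟩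
          obtain ⟨a₀, ha₀, ha₀x⟩ := hAx
          obtain ⟨A', hA'⟩ := split_of_par_aux hN hx hmax hA.compl
            ⟨u, Finset.mem_sdiff.2 ⟨hue, huA⟩, hunx⟩
            ⟨a₀, hAS' ha₀, by simp [ha₀], ha₀x⟩
          exact ⟨A', Or.inr hA'⟩
    · push Not at hAx
      refine ⟨A, Or.inr ⟨hAS', hAne, ⟨x, hx, hxA⟩, ?_⟩⟩
      intro a ha b hb hbA
      by_cases hbx : b = x
      · subst hbx
        exact hcomp a (hAS' ha) (fun h => hxA (h ▸ ha)) (hAx a ha)
      · exact hinc a ha b (Finset.mem_erase.2 ⟨hbx, hb⟩) hbA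
  · push Not at hB
    -- everything outside A is incomparable to x
    have key : ParSplit S (S.erase x \ A) := by
      refine ⟨Finset.sdiff_subset.trans (Finset.erase_subset _ _), ⟨b₁, Finset.mem_sdiff.2 ⟨hb₁S, hb₁A⟩⟩,
        ⟨x, hx, by simp⟩, ?_⟩
      intro a ha b hb hbA
      rw [Finset.mem_sdiff] at ha
      obtain ⟨haS, haA⟩ := ha
      by_cases hbx : b = x
      · subst hbx
        exact hcomp a (Finset.mem_of_mem_erase haS) (Finset.ne_of_mem_erase haS) (hB a (Finset.mem_of_mem_erase haS) haA)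
      · have hbA' : b ∈ A := by
          by_contra hcon
          exact hbA (Finset.mem_sdiff.2 ⟨Finset.mem_erase.2 ⟨hbx, hb⟩, hcon⟩)
        have := hinc b hbA' a haS haA
        exact ⟨this.2, this.1⟩
    exact ⟨_, Or.inr key⟩

/-- Every finite N-free set with at least two elements splits in series or in parallel. -/
theorem exists_split [DecidableEq α] : ∀ (m : ℕ) (S : Finset α), S.card = m → 2 ≤ m → NFreeOn S →
    ∃ A, SerSplit S A ∨ ParSplit S A := by
  intro m
  induction m with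
  | zero => intro S _ h; omega
  | succ m ih =>
    intro S hcard h2 hN
    have hne : S.Nonempty := Finset.card_pos.1 (by omega)
    obtain ⟨x, hxm⟩ := S.exists_maximal hne
    have hx : x ∈ S := hxm.1
    have hmax : ∀ y ∈ S, ¬ x < y := fun y hy hlt => by
      have := hxm.2 hy hlt.le
      exact absurd (lt_of_lt_of_le hlt this) (lt_irrefl _)
    by_cases hm : 2 ≤ m
    · have hc : (S.erase x).card = m := by rw [Finset.card_erase_of_mem hx]; omega
      obtain ⟨A, hA | hA⟩ := ih (S.erase x) hc hm (hN.mono (Finset.erase_subset _ _))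
      · exact split_of_ser hN hx hmax hA
      · exact split_of_par hN hx hmax hA
    · have hm1 : m = 1 := by omega
      subst hm1
      have hc : (S.erase x).card = 1 := by rw [Finset.card_erase_of_mem hx]; omega
      obtain ⟨z, hz⟩ := Finset.card_eq_one.1 hc
      have hzS : z ∈ S.erase x := by rw [hz]; simp
      have hzx : z ≠ x := Finset.ne_of_mem_erase hzS
      have hzS' : z ∈ S := Finset.mem_of_mem_erase hzS
      have hSel : ∀ b ∈ S, b = x ∨ b = z := by
        intro b hb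
        by_cases hbx : b = x
        · exact Or.inl hbx
        · right
          have : b ∈ S.erase x := Finset.mem_erase.2 ⟨hbx, hb⟩
          rw [hz] at this
          simpa using this
      by_cases hlt : z < x
      · refine ⟨{z}, Or.inl ⟨by simpa using hzS', by simp, ⟨x, hx, by simpa using hzx.symm⟩, ?_⟩⟩
        intro a ha b hb hbz
        rw [Finset.mem_singleton] at ha hbz
        subst ha
        rcases hSel b hb with h | h
        · subst h; exact hlt
        · exact absurd h hbz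
      · refine ⟨{z}, Or.inr ⟨by simpa using hzS', by simp, ⟨x, hx, by simpa using hzx.symm⟩, ?_⟩⟩
        intro a ha b hb hbz
        rw [Finset.mem_singleton] at ha hbz
        subst ha
        rcases hSel b hb with h | h
        · subst h
          exact ⟨fun h => hlt (lt_of_le_of_ne h hzx), fun h => hmax a hzS' (lt_of_le_of_ne h (Ne.symm hzx))⟩
        · exact absurd h hbz

end Pool.Agent.Helper71_NFree
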