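import Mathlib
import Pool.Agent.Helper71_NFree.Split
import Pool.Agent.Helper71_NFree.Count

set_option autoImplicit false

/-! Copies of N-free posets and the counting property. -/

namespace Pool.Agent.Helper71_NFree

variable {V : Type} [DecidableEq V] {α : Type} [PartialOrder α]

/-- A copy of `S` inside the open interval `(b, b')` made of sets satisfying `B`. -/
def HasCopy (B : Finset V → Prop) (S : Finset α) (b b' : Finset V) : Prop :=
  ∃ f : α → Finset V, (∀ x ∈ S, B (f x) ∧ b ⊂ f x ∧ f x ⊂ b') ∧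
    (∀ x ∈ S, ∀ y ∈ S, f x ⊆ f y ↔ x ≤ y)

omit [DecidableEq V] in
theorem HasCopy.mono {B : Finset V → Prop} {S : Finset α} {b b' c c' : Finset V} (h : HasCopy B S b b')
    (h1 : c ⊆ b) (h2 : b' ⊆ c') : HasCopy B S c c' := by
  obtain ⟨f, hf, hf'⟩ := h
  exact ⟨f, fun x hx => ⟨(hf x hx).1, lt_of_le_of_lt h1 (hf x hx).2.1, lt_of_lt_of_le (hf x hx).2.2 h2⟩, hf'⟩

omit [DecidableEq V] in
theorem HasCopy.ssub {B : Finset V → Prop} {S : Finset α} (hS : S.Nonempty) {b b' : Finset V}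
    (h : HasCopy B S b b') : b ⊂ b' := by
  obtain ⟨f, hf, -⟩ := h
  obtain ⟨x, hx⟩ := hS
  exact lt_trans (hf x hx).2.1 (hf x hx).2.2

omit [DecidableEq V] in
theorem HasCopy.series [DecidableEq α] {B : Finset V → Prop} {S A : Finset α} (hA : SerSplit S A)
    {b b' : Finset V} (h : ∃ c, HasCopy B A b c ∧ HasCopy B (S \ A) c b') : HasCopy B S b b' := by
  classical
  obtain ⟨c, ⟨f, hf1, hf2⟩, ⟨g, hg1, hg2⟩⟩ := h
  obtain ⟨hAS, ⟨x₀, hx₀⟩, ⟨y₀, hy₀, hy₀A⟩, hlt⟩ := hA
  have hbc : b ⊂ c := lt_trans (hf1 x₀ hx₀).2.1 (hf1 x₀ hx₀).2.2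
  have hcb : c ⊂ b' := by
    have := hg1 y₀ (Finset.mem_sdiff.2 ⟨hy₀, hy₀A⟩)
    exact lt_trans this.2.1 this.2.2
  refine ⟨fun x => if x ∈ A then f x else g x, ?_, ?_⟩
  · intro x hx
    by_cases hxA : x ∈ A
    · simp only [hxA, if_true]
      exact ⟨(hf1 x hxA).1, (hf1 x hxA).2.1, lt_trans (hf1 x hxA).2.2 hcb⟩
    · simp only [hxA, if_false]
      have := hg1 x (Finset.mem_sdiff.2 ⟨hx, hxA⟩)
      exact ⟨this.1, lt_trans hbc this.2.1, this.2.2⟩
  · intro x hx y hy
    by_cases hxA : x ∈ A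
    · by_cases hyA : y ∈ A
      · simp only [hxA, hyA, if_true]
        exact hf2 x hxA y hyA
      · simp only [hxA, hyA, if_true, if_false]
        have h1 := hf1 x hxA
        have h2 := hg1 y (Finset.mem_sdiff.2 ⟨hy, hyA⟩)
        have h3 : f x ⊂ g y := lt_trans h1.2.2 h2.2.1
        exact ⟨fun _ => (hlt x hxA y hy hyA).le, fun _ => h3.1⟩
    · by_cases hyA : y ∈ A
      · simp only [hxA, hyA, if_true, if_false]
        have h1 := hf1 y hyA
        have h2 := hg1 x (Finset.mem_sdiff.2 ⟨hx, hxA⟩)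
        have h3 : f y ⊂ g x := lt_trans h1.2.2 h2.2.1
        have h4 := hlt y hyA x hx hxA
        exact ⟨fun h => absurd h h3.2, fun h => absurd h (not_le_of_gt h4)⟩
      · simp only [hxA, hyA, if_false]
        exact hg2 x (Finset.mem_sdiff.2 ⟨hx, hxA⟩) y (Finset.mem_sdiff.2 ⟨hy, hyA⟩)

omit [DecidableEq V] in
theorem HasCopy.parallel [DecidableEq α] {B : Finset V → Prop} {S A : Finset α} (hA : ParSplit S A)
    {b b' : Finset V} (h : Par (fun b b' => ∃ c, HasCopy B A b c ∧ HasCopy B (S \ A) c b') b b') :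
    HasCopy B S b b' := by
  classical
  obtain ⟨c, d, c', d', h1, h2, h3, h4, ⟨m, hm1, hm2⟩, ⟨m', hm1', hm2'⟩, h5, h6⟩ := h
  obtain ⟨hAS, ⟨x₀, hx₀⟩, ⟨y₀, hy₀, hy₀A⟩, hinc⟩ := hA
  have hne : (S \ A).Nonempty := ⟨y₀, Finset.mem_sdiff.2 ⟨hy₀, hy₀A⟩⟩
  have hne' : A.Nonempty := ⟨x₀, hx₀⟩
  have k1 : HasCopy B A c d := hm1.mono (Finset.Subset.refl _) (hm2.ssub hne).1
  have k2 : HasCopy B (S \ A) c' d' := hm2'.mono (hm1'.ssub hne').1 (Finset.Subset.refl _)
  obtain ⟨f, hf1, hf2⟩ := k1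
  obtain ⟨g, hg1, hg2⟩ := k2
  have hfg : ∀ x ∈ A, ∀ y ∈ S \ A, ¬ f x ⊆ g y ∧ ¬ g y ⊆ f x := by
    intro x hx y hy
    refine ⟨fun h => h5 ?_, fun h => h6 ?_⟩
    · exact ((hf1 x hx).2.1.1.trans h).trans (hg1 y hy).2.2.1
    · exact ((hg1 y hy).2.1.1.trans h).trans (hf1 x hx).2.2.1
  refine ⟨fun x => if x ∈ A then f x else g x, ?_, ?_⟩
  · intro x hx
    by_cases hxA : x ∈ A
    · simp only [hxA, if_true]
      exact ⟨(hf1 x hxA).1, lt_of_le_of_lt h1 (hf1 x hxA).2.1, lt_of_lt_of_le (hf1 x hxA).2.2 h2⟩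
    · simp only [hxA, if_false]
      have := hg1 x (Finset.mem_sdiff.2 ⟨hx, hxA⟩)
      exact ⟨this.1, lt_of_le_of_lt h3 this.2.1, lt_of_lt_of_le this.2.2 h4⟩
  · intro x hx y hy
    by_cases hxA : x ∈ A
    · by_cases hyA : y ∈ A
      · simp only [hxA, hyA, if_true]
        exact hf2 x hxA y hyA
      · simp only [hxA, hyA, if_true, if_false]
        have k := hfg x hxA y (Finset.mem_sdiff.2 ⟨hy, hyA⟩)
        have k' := hinc x hxA y hy hyA
        exact ⟨fun h => absurd h k.1, fun h => absurd h k'.1⟩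
    · by_cases hyA : y ∈ A
      · simp only [hxA, hyA, if_true, if_false]
        have k := hfg y hyA x (Finset.mem_sdiff.2 ⟨hx, hxA⟩)
        have k' := hinc y hyA x hx hxA
        exact ⟨fun h => absurd h k.2, fun h => absurd h k'.2⟩
      · simp only [hxA, hyA, if_false]
        exact hg2 x (Finset.mem_sdiff.2 ⟨hx, hxA⟩) y (Finset.mem_sdiff.2 ⟨hy, hyA⟩)

/-- Every nonempty finite N-free set has the counting property. -/
theorem exists_good [DecidableEq α] : ∀ (m : ℕ) (S : Finset α), S.card ≤ m → S.Nonempty → NFreeOn S →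
    ∃ K : ℕ, 1 ≤ K ∧ ∀ (N : ℕ) (Y : Finset (Fin N)) (B : Finset (Fin N) → Prop),
      Good Y B K (HasCopy B S) := by
  intro m
  induction m with
  | zero =>
    intro S h hne
    have := Finset.card_pos.2 hne
    omega
  | succ m ih =>
    intro S hcard hne hN
    rcases Nat.lt_or_ge S.card 2 with hlt | hge
    · have h1 : S.card = 1 := by
        have := Finset.card_pos.2 hne
        omega
      obtain ⟨x, hx⟩ := Finset.card_eq_one.1 h1
      subst hx
      refine ⟨2, by norm_num, fun N Y B => ?_⟩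
      refine (good_point Y B).mono (le_refl _) ?_
      rintro b b' ⟨z, hz1, hz2, hz3⟩
      refine ⟨fun _ => z, fun y _ => ⟨hz1, hz2, hz3⟩, ?_⟩
      intro u hu v hv
      rw [Finset.mem_singleton] at hu hv
      subst hu; subst hv
      simp
    · obtain ⟨A, hA⟩ := exists_split S.card S rfl hge hN
      have hsub : A ⊆ S ∧ A.Nonempty ∧ (∃ x ∈ S, x ∉ A) := by
        rcases hA with hA | hA
        · exact ⟨hA.1, hA.2.1, hA.2.2.1⟩
        · exact ⟨hA.1, hA.2.1, hA.2.2.1⟩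
      obtain ⟨hAS, hAne, ⟨y₀, hy₀, hy₀A⟩⟩ := hsub
      have hne2 : (S \ A).Nonempty := ⟨y₀, Finset.mem_sdiff.2 ⟨hy₀, hy₀A⟩⟩
      have hc : (S \ A).card + A.card = S.card := Finset.card_sdiff_add_card_eq_card hAS
      have p1 := Finset.card_pos.2 hAne
      have p2 := Finset.card_pos.2 hne2
      obtain ⟨K₁, hK₁, hG₁⟩ := ih A (by omega) hAne (hN.mono hAS)
      obtain ⟨K₂, hK₂, hG₂⟩ := ih (S \ A) (by omega) hne2 (hN.mono Finset.sdiff_subset)
      have hser : ∀ (N : ℕ) (Y : Finset (Fin N)) (B : Finset (Fin N) → Prop),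
          Good Y B (8 * (max K₁ K₂)) (fun b b' => ∃ c, HasCopy B A b c ∧ HasCopy B (S \ A) c b') := by
        intro N Y B
        refine good_series (le_max_of_le_left hK₁) ?_ ((hG₁ N Y B).mono (le_max_left _ _) (fun _ _ h => h))
          ((hG₂ N Y B).mono (le_max_right _ _) (fun _ _ h => h))
        intro c hcc
        exact absurd (hcc.ssub hAne) (ssubset_irrefl _)
      rcases hA with hA | hA
      · refine ⟨8 * (max K₁ K₂), ?_, fun N Y B => (hser N Y B).mono (le_refl _) (fun b b' h => HasCopy.series hA h)⟩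
        have := le_max_left K₁ K₂
        omega
      · refine ⟨128 * (8 * (max K₁ K₂)), ?_, fun N Y B => ?_⟩
        · have := le_max_left K₁ K₂
          omega
        · refine (good_par ?_ ?_ ?_ (hser N Y B)).mono (le_refl _) (fun b b' h => HasCopy.parallel hA h)
          · have := le_max_left K₁ K₂
            omega
          · rintro c d c' d' ⟨m, hm1, hm2⟩ h1 h2
            exact ⟨m, hm1.mono h1 (Finset.Subset.refl _), hm2.mono (Finset.Subset.refl _) h2⟩
          · rintro c d ⟨m, hm1, hm2⟩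
            exact lt_trans (hm1.ssub hAne) (hm2.ssub hne2)

end Pool.Agent.Helper71_NFree
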