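import Mathlib
import Pool.Agent.Helper71_NFree.Count

set_option autoImplicit false

/-! The chain lemma: no red Boolean lattice forces blue chains for every order of the extra points. -/

namespace Pool.Agent.Helper71_NFree

open Filter

variable {N : ℕ}

/-- A blue chain inside `A` on the levels given by the suffixes of `l`. -/
def PC (B : Finset (Fin N) → Prop) : List (Fin N) → Finset (Fin N) → Prop
  | [], A => ∃ A' ⊆ A, B A'
  | (y :: l), A => ∃ A' ⊆ A, B (A' ∪ (y :: l).toFinset) ∧ PC B l A'

theorem PC.mono {B : Finset (Fin N) → Prop} {l : List (Fin N)} {A A' : Finset (Fin N)} (h : PC B l A)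
    (hA : A ⊆ A') : PC B l A' := by
  cases l with
  | nil => obtain ⟨C, h1, h2⟩ := h; exact ⟨C, h1.trans hA, h2⟩
  | cons y l => obtain ⟨C, h1, h2, h3⟩ := h; exact ⟨C, h1.trans hA, h2, h3⟩

open Classical in
/-- The `Y`-part of the red set assigned to `A`. -/
noncomputable def TT (B : Finset (Fin N) → Prop) : List (Fin N) → Finset (Fin N) → Finset (Fin N)
  | [], _ => ∅
  | (y :: l), A => if PC B l A then (y :: l).toFinset else TT B l A

theorem TT_subset (B : Finset (Fin N) → Prop) : ∀ (l : List (Fin N)) (A : Finset (Fin N)),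
    TT B l A ⊆ l.toFinset
  | [], _ => by simp [TT]
  | (y :: l), A => by
    unfold TT
    split_ifs
    · exact Finset.Subset.refl _
    · refine (TT_subset B l A).trans ?_
      intro x hx
      simp only [List.mem_toFinset, List.mem_cons] at hx ⊢
      exact Or.inr hx

theorem TT_mono (B : Finset (Fin N) → Prop) : ∀ (l : List (Fin N)) (A A' : Finset (Fin N)), A ⊆ A' →
    TT B l A ⊆ TT B l A'
  | [], _, _, _ => by simp [TT]
  | (y :: l), A, A', h => by
    unfold TT
    split_ifs with h1 h2 h2
    · exact Finset.Subset.refl _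
    · exact absurd (h1.mono h) h2
    · refine (TT_subset B l A).trans ?_
      intro x hx
      simp only [List.mem_toFinset, List.mem_cons] at hx ⊢
      exact Or.inr hx
    · exact TT_mono B l A A' h

theorem TT_red (B : Finset (Fin N) → Prop) : ∀ (l : List (Fin N)) (A : Finset (Fin N)), ¬ PC B l A →
    ¬ B (A ∪ TT B l A)
  | [], A, h => by
    intro hB
    simp only [TT, Finset.union_empty] at hB
    exact h ⟨A, Finset.Subset.refl _, hB⟩
  | (y :: l), A, h => by
    intro hB
    unfold TT at hB
    split_ifs at hB with h1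
    · exact h ⟨A, Finset.Subset.refl _, hB, h1⟩
    · exact TT_red B l A h1 hB

/-- From a nested family to `Reach`. -/
theorem PC.reach {B : Finset (Fin N) → Prop} {Y : Finset (Fin N)} :
    ∀ (l : List (Fin N)) (A : Finset (Fin N)), l.Nodup → (∀ y ∈ l, y ∈ Y) → Disjoint A Y → PC B l A →
      ∃ b A', A' ⊆ A ∧ Reach Y B b l (A' ∪ l.toFinset)
  | [], A, _, _, _, h => by
    obtain ⟨A', h1, -⟩ := h
    exact ⟨A', A', h1, by simp [Reach]⟩
  | (y :: l), A, hnd, hY, hA, h => by
    obtain ⟨A', h1, h2, h3⟩ := h
    rw [List.nodup_cons] at hnd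
    have hA' : Disjoint A' Y := Finset.disjoint_of_subset_left h1 hA
    obtain ⟨b, A'', h4, h5⟩ := PC.reach l A' hnd.2 (fun z hz => hY z (List.mem_cons_of_mem _ hz)) hA' h3
    refine ⟨b, A', h1, h2, A'' ∪ l.toFinset, ?_, h5⟩
    have hyY : y ∈ Y := hY y List.mem_cons_self
    have hyA : y ∉ A' := fun hh => (Finset.disjoint_left.1 hA' hh) hyY
    refine ⟨?_, ?_, hyY, ?_⟩
    · intro x hx
      rw [Finset.mem_union] at hx ⊢
      rcases hx with hx | hx
      · exact Or.inl (h4 hx)
      · refine Or.inr ?_
        simp only [List.mem_toFinset, List.mem_cons] at hx ⊢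
        exact Or.inr hx
    · rw [Finset.mem_union]
      rintro (hx | hx)
      · exact hyA (h4 hx)
      · exact hnd.1 (List.mem_toFinset.1 hx)
    · ext x
      simp only [Finset.mem_inter, Finset.mem_union, List.mem_toFinset, List.mem_cons, Finset.mem_insert]
      constructor
      · rintro ⟨hx | hx | hx, hxY⟩
        · exact absurd hxY (Finset.disjoint_left.1 hA' hx)
        · exact Or.inl hx
        · exact Or.inr ⟨Or.inr hx, hxY⟩
      · rintro (hx | ⟨hx | hx, hxY⟩)
        · subst hx; exact ⟨Or.inr (Or.inl rfl), hyY⟩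
        · exact absurd hxY (Finset.disjoint_left.1 hA' (h4 hx))
        · exact ⟨Or.inr (Or.inr hx), hxY⟩

/-- The chain lemma. -/
theorem chain_lemma {n : ℕ} (B : Finset (Fin N) → Prop) (X Y : Finset (Fin N)) (hXY : Disjoint X Y)
    (hX : X.card = n)
    (hred : ¬ ∃ g : Finset (Fin n) ↪o Finset (Fin N), ∀ s, ¬ B (g s))
    (l : List (Fin N)) (hnd : l.Nodup) (hl : ∀ y ∈ l, y ∈ Y) :
    ∃ b b', Reach Y B b l b' := by
  classical
  by_cases hex : ∃ A, A ⊆ X ∧ PC B l A
  · obtain ⟨A, hA, hP⟩ := hex
    obtain ⟨b, A', -, h⟩ := hP.reach (Y := Y) l A hnd hl (Finset.disjoint_of_subset_left hA hXY)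
    exact ⟨b, _, h⟩
  · exfalso
    push Not at hex
    apply hred
    set σ : Fin n ↪o Fin N := X.orderEmbOfFin hX with hσ
    have hσX : ∀ i, σ i ∈ X := fun i => Finset.orderEmbOfFin_mem X hX i
    have hmapX : ∀ s : Finset (Fin n), s.map σ.toEmbedding ⊆ X := by
      intro s x hx
      rw [Finset.mem_map] at hx
      obtain ⟨i, -, rfl⟩ := hx
      exact hσX i
    have hTY : ∀ A, TT B l A ⊆ Y := by
      intro A x hx
      exact hl x (List.mem_toFinset.1 (TT_subset B l A hx))
    refine ⟨OrderEmbedding.ofMapLEIff (fun s => s.map σ.toEmbedding ∪ TT B l (s.map σ.toEmbedding)) ?_, ?_⟩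
    · intro s t
      constructor
      · intro h i hi
        have h1 : σ i ∈ s.map σ.toEmbedding := Finset.mem_map_of_mem _ hi
        have h2 : σ i ∈ t.map σ.toEmbedding ∪ TT B l (t.map σ.toEmbedding) :=
          h (Finset.mem_union_left _ h1)
        rcases Finset.mem_union.1 h2 with h3 | h3
        · rw [Finset.mem_map] at h3
          obtain ⟨j, hj, hij⟩ := h3
          have : j = i := σ.injective hij
          rw [← this]
          exact hj
        · exact absurd (hTY _ h3) (Finset.disjoint_left.1 hXY (hσX i))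
      · intro h
        exact Finset.union_subset_union (Finset.map_subset_map.2 h) (TT_mono B l _ _ (Finset.map_subset_map.2 h))
    · intro s
      exact TT_red B l _ (hex _ (hmapX s))

end Pool.Agent.Helper71_NFree
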